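import Pool.Agent.Helper7.KT.St

set_option autoImplicit false

/-!
Project KT, module STR: the structure of the edges with poor pairs.
-/

namespace Pool.Agent.Helper76.KT

open Finset SimpleGraph Filter Topology
open EX Pool.Agent.Helper7.KT

open scoped Classical

noncomputable section

/-- the tuples for which no position is a centre -/
private def bad {n k : ℕ} (Γ : SimpleGraph (Fin n)) (δ : ℝ) (e : Fin (k + 1) → Fin n) : Prop :=
  ¬ ∃ b, δ * n ≤ dg Γ univ (e b) ∧ ∀ i, i ≠ b → Γ.Adj (e b) (e i)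

private theorem card_bad_le {n k : ℕ} (Γ : SimpleGraph (Fin n)) (δ : ℝ)
    (H : Finset (Finset (Fin n))) (hH : ∀ E ∈ H, E.card = k + 1) :
    (H.filter fun E => ¬ Cq Γ E ∧ ¬ Ce Γ (Ct Γ δ) E).card ≤
      ((UB.tup k (H.filter fun E => ¬ Cq Γ E)).filter (bad Γ δ)).card := by
  rw [← UB.tup_card (k := k) (H.filter fun E => ¬ Cq Γ E ∧ ¬ Ce Γ (Ct Γ δ) E)
    (fun E hE => hH E (mem_filter.1 hE).1)]
  refine card_le_card fun e he => ?_
  obtain ⟨-, hmono, himg⟩ := mem_filter.1 he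
  obtain ⟨h1, h2, h3⟩ := mem_filter.1 himg
  refine mem_filter.2 ⟨mem_filter.2 ⟨mem_univ _, hmono, mem_filter.2 ⟨h1, h2⟩⟩, ?_⟩
  rintro ⟨b, hb, hadj⟩
  apply h3
  refine ⟨e b, mem_filter.2 ⟨mem_univ _, hb⟩, mem_image_of_mem _ (mem_univ _), ?_⟩
  intro v hv hne
  obtain ⟨i, _, rfl⟩ := mem_image.1 hv
  exact hadj i fun h => hne (by rw [h])

private theorem card_split {α : Type} {m : ℕ} (F : Finset α) (F' : Fin m → Finset α)
    (hsub : ∀ j, F' j ⊆ F) (hdisj : ∀ i j, i ≠ j → Disjoint (F' i) (F' j)) (p : α → Prop)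
    (δ₀ : ℝ) (h : (F.card : ℝ) ≤ ∑ j, ((F' j).card : ℝ) + δ₀ * F.card) :
    ((F.filter p).card : ℝ) ≤ ∑ j, (((F' j).filter p).card : ℝ) + δ₀ * F.card := by
  have h1 : (univ.biUnion F').card = ∑ j, (F' j).card :=
    card_biUnion fun i _ j _ hij => hdisj i j hij
  have hU : univ.biUnion F' ⊆ F := biUnion_subset.2 fun j _ => hsub j
  have h2 : (F \ univ.biUnion F').card = F.card - ∑ j, (F' j).card := by
    rw [card_sdiff_of_subset hU, h1]
  have hle : ∑ j, (F' j).card ≤ F.card := by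
    rw [← h1]
    exact card_le_card hU
  have h3 : F.filter p ⊆ (univ.biUnion fun j => (F' j).filter p) ∪ (F \ univ.biUnion F') := by
    intro x hx
    obtain ⟨hx1, hx2⟩ := mem_filter.1 hx
    by_cases hxU : x ∈ univ.biUnion F'
    · obtain ⟨j, hj, hxj⟩ := mem_biUnion.1 hxU
      exact mem_union_left _ (mem_biUnion.2 ⟨j, hj, mem_filter.2 ⟨hxj, hx2⟩⟩)
    · exact mem_union_right _ (mem_sdiff.2 ⟨hx1, hxU⟩)
  have h4 : (F.filter p).card ≤ ∑ j, ((F' j).filter p).card + (F.card - ∑ j, (F' j).card) := by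
    refine (card_le_card h3).trans ((card_union_le _ _).trans ?_)
    rw [h2]
    exact Nat.add_le_add_right card_biUnion_le _
  have h5 : ((F.filter p).card : ℝ) ≤ ∑ j, (((F' j).filter p).card : ℝ) +
      ((F.card : ℝ) - ∑ j, ((F' j).card : ℝ)) := by
    have := (Nat.cast_le (α := ℝ)).2 h4
    rw [Nat.cast_add, Nat.cast_sub hle] at this
    push_cast at this
    exact this
  linarith

theorem hSTR (hKFG : StKFG) (hRGF : StRGF) (hKST : StKST) (hHOB : StHOB) (hFAM : StFAM) :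
    StSTR := by
  intro k hk U _ G s t hBp hs hG ε hε
  have hN : 2 * (k + 1) < sN k G := by
    unfold sN
    omega
  obtain ⟨C₀, hC₀, hob⟩ := hHOB k hk U G s t hBp hG
  have hδ₀ : (0 : ℝ) < ε / (4 * (C₀ + 1)) := by positivity
  obtain ⟨m, hm⟩ := decomp (k + 1) (sN k G) (by omega) (ε / (4 * (C₀ + 1))) hδ₀
  have hε₁ : (0 : ℝ) < ε / (8 * ((m : ℝ) + 1)) := by positivity
  refine ⟨min 1 (ε / (8 * ((m : ℝ) + 1))), lt_min one_pos hε₁, ?_⟩
  set δ : ℝ := min 1 (ε / (8 * ((m : ℝ) + 1))) with hδ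
  have hδ0 : 0 < δ := lt_min one_pos hε₁
  have hδ1 : δ ≤ 1 := min_le_left _ _
  have hδ2 : δ ≤ ε / (8 * ((m : ℝ) + 1)) := min_le_right _ _
  filter_upwards [hob, hKST s t hs (ε / (8 * ((m : ℝ) + 1))) hε₁,
    eventually_ge_atTop ⌈2 * m / ε⌉₊] with n hn1 hn2 hn3
  intro H hFr
  have hH : ∀ E ∈ H, E.card = k + 1 := hFr.1
  have hkf := hKFG U G s t hBp (Fin n) (Γr k G H) (hRGF k (by omega) U G (Fin n) H hFr) univ
  have hdg := hn2 (Γr k G H) hkf
  have hH1c := hn1 H hFr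
  set Γ : SimpleGraph (Fin n) := Γr k G H with hΓ
  set H₁ : Finset (Finset (Fin n)) := H.filter fun E => ¬ Cq Γ E with hH₁
  set F : Finset (Fin (k + 1) → Fin n) := UB.tup k H₁ with hFdef
  have hFc : F.card = H₁.card := UB.tup_card H₁ fun E hE => hH E (mem_filter.1 hE).1
  have hFm : ∀ e ∈ F, StrictMono e ∧ univ.image e ∈ H₁ := fun e he => (mem_filter.1 he).2
  obtain ⟨F', P, J, hF'sub, hF'disj, hHom, hP, hsum⟩ := hm n F
    fun e he => (hFm e he).1.injective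
  have hX0 : (0 : ℝ) ≤ n := Nat.cast_nonneg n
  have hnr : ∀ E ∈ H₁, ∃ u ∈ E, ∃ v ∈ E, u ≠ v ∧ ¬ Rich (sN k G) H u v := by
    intro E hE
    have h1 := (mem_filter.1 hE).2
    unfold Cq at h1
    push Not at h1
    obtain ⟨u, hu, v, hv, huv, hnadj⟩ := h1
    exact ⟨u, hu, v, hv, huv, fun hr => hnadj ⟨huv, hr⟩⟩
  -- one family
  have hone : ∀ j, (((F' j).filter (bad Γ δ)).card : ℝ) ≤
      ε / (8 * ((m : ℝ) + 1)) * (n : ℝ) ^ k + δ * (n : ℝ) ^ k + (n : ℝ) ^ (k - 1) := by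
    intro j
    have hpow : (n : ℝ) ^ 2 * (n : ℝ) ^ (k - 2) = (n : ℝ) ^ k := by
      rw [← pow_add]
      congr 1
      omega
    have hp1 : (0 : ℝ) ≤ (n : ℝ) ^ k := by positivity
    have hp2 : (0 : ℝ) ≤ (n : ℝ) ^ (k - 1) := by positivity
    have hp3 : (0 : ℝ) ≤ ε / (8 * ((m : ℝ) + 1)) * (n : ℝ) ^ k := by positivity
    have hp4 : (0 : ℝ) ≤ δ * (n : ℝ) ^ k := by positivity
    by_cases hcov : Cov (J j)
    · rcases (F' j).eq_empty_or_nonempty with hemp | hne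
      · rw [hemp]
        simp only [filter_empty, card_empty, Nat.cast_zero]
        linarith
      · have hown := UB.own_nonempty (by omega : 2 ≤ k) hN (H := H) (H2 := H₁)
          (filter_subset _ _) hnr (fun e he => hFm e (hF'sub j he)) (hHom j) (hP j) hne hcov
        have h1 := hFAM n k (sN k G) hk hN H (F' j) (P j) (J j)
          (fun e he => ⟨(hFm e (hF'sub j he)).1,
            (mem_filter.1 (hFm e (hF'sub j he)).2).1⟩) (hHom j) (hP j) hcov hown δ hδ0.le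
        have h2 : ((∑ v, dg Γ univ v : ℕ) : ℝ) * (n : ℝ) ^ (k - 2) ≤
            ε / (8 * ((m : ℝ) + 1)) * (n : ℝ) ^ k := by
          rw [← hpow, ← mul_assoc]
          exact mul_le_mul_of_nonneg_right hdg (by positivity)
        have h3 : (n : ℝ) ^ 2 * (δ * n) ^ (k - 2) ≤ δ * (n : ℝ) ^ k := by
          have h4 : δ ^ (k - 2) ≤ δ := by
            calc δ ^ (k - 2) ≤ δ ^ 1 := pow_le_pow_of_le_one hδ0.le hδ1 (by omega)
              _ = δ := pow_one δ
          calc (n : ℝ) ^ 2 * (δ * n) ^ (k - 2) = δ ^ (k - 2) * ((n : ℝ) ^ 2 * (n : ℝ) ^ (k - 2)) := by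
                rw [mul_pow]
                ring
            _ = δ ^ (k - 2) * (n : ℝ) ^ k := by rw [hpow]
            _ ≤ δ * (n : ℝ) ^ k := mul_le_mul_of_nonneg_right h4 hp1
        have h5 : (((F' j).filter (bad Γ δ)).card : ℝ) ≤
            ((∑ v, dg Γ univ v : ℕ) : ℝ) * (n : ℝ) ^ (k - 2) +
              (n : ℝ) ^ 2 * (δ * n) ^ (k - 2) := by
          refine le_trans (le_of_eq ?_) h1
          refine congrArg (fun s : Finset (Fin (k + 1) → Fin n) => ((s.card : ℕ) : ℝ)) ?_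
          ext x
          simp only [mem_filter, bad]
          rfl
        linarith
    · have h1 := (hHom j).card_le (by omega) hcov
      have h2 : ((F' j).filter (bad Γ δ)).card ≤ n ^ (k - 1) := by
        refine (card_filter_le _ _).trans ?_
        simpa using h1
      have h3 : (((F' j).filter (bad Γ δ)).card : ℝ) ≤ (n : ℝ) ^ (k - 1) := by exact_mod_cast h2
      linarith
  have hsplit := card_split F F' hF'sub hF'disj (bad Γ δ) _ hsum
  have hle := card_bad_le (k := k) Γ δ H hH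
  have hle' : ((H.filter fun E => ¬ Cq Γ E ∧ ¬ Ce Γ (Ct Γ δ) E).card : ℝ) ≤
      ((F.filter (bad Γ δ)).card : ℝ) := by exact_mod_cast hle
  have hsum2 : ∑ j, (((F' j).filter (bad Γ δ)).card : ℝ) ≤
      m * (ε / (8 * ((m : ℝ) + 1)) * (n : ℝ) ^ k + δ * (n : ℝ) ^ k + (n : ℝ) ^ (k - 1)) := by
    refine (Finset.sum_le_sum fun j _ => hone j).trans ?_
    rw [Finset.sum_const, card_univ, Fintype.card_fin, nsmul_eq_mul]
  have hP1 : (0 : ℝ) ≤ (n : ℝ) ^ k := by positivity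
  -- numbers
  have ha : (m : ℝ) * (ε / (8 * ((m : ℝ) + 1))) ≤ ε / 8 := by
    rw [mul_div_assoc', div_le_div_iff₀ (by positivity) (by norm_num)]
    nlinarith
  have hb : (m : ℝ) * δ ≤ ε / 8 :=
    (mul_le_mul_of_nonneg_left hδ2 (Nat.cast_nonneg m)).trans ha
  have hc : (m : ℝ) * (n : ℝ) ^ (k - 1) ≤ ε / 2 * (n : ℝ) ^ k := by
    have h1 : 2 * m / ε ≤ n := (Nat.le_ceil _).trans (by exact_mod_cast hn3)
    rw [div_le_iff₀ hε] at h1
    have h2 : (n : ℝ) ^ k = n * (n : ℝ) ^ (k - 1) := by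
      rw [← pow_succ']
      congr 1
      omega
    rw [h2, ← mul_assoc]
    refine mul_le_mul_of_nonneg_right ?_ (by positivity)
    linarith
  have hd : ε / (4 * (C₀ + 1)) * (F.card : ℝ) ≤ ε / 4 * (n : ℝ) ^ k := by
    have h1 : (F.card : ℝ) ≤ C₀ * (n : ℝ) ^ k := by
      rw [hFc]
      exact hH1c
    calc ε / (4 * (C₀ + 1)) * (F.card : ℝ) ≤ ε / (4 * (C₀ + 1)) * (C₀ * (n : ℝ) ^ k) :=
          mul_le_mul_of_nonneg_left h1 hδ₀.le
      _ = (ε / (4 * (C₀ + 1)) * C₀) * (n : ℝ) ^ k := by ring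
      _ ≤ ε / 4 * (n : ℝ) ^ k := by
          refine mul_le_mul_of_nonneg_right ?_ hP1
          rw [div_mul_eq_mul_div, div_le_div_iff₀ (by positivity) (by norm_num)]
          nlinarith
  have he1 : (m : ℝ) * (ε / (8 * ((m : ℝ) + 1))) * (n : ℝ) ^ k ≤ ε / 8 * (n : ℝ) ^ k :=
    mul_le_mul_of_nonneg_right ha hP1
  have he2 : (m : ℝ) * δ * (n : ℝ) ^ k ≤ ε / 8 * (n : ℝ) ^ k :=
    mul_le_mul_of_nonneg_right hb hP1
  nlinarith [hle', hsplit, hsum2, hc, hd, he1, he2]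

end

end Pool.Agent.Helper76.KT
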